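import Mathlib

/-!
# Project SV (HARD page MP_b7f146_ag): real plane curves with separated variables

THEOREM. A nonsingular real plane curve of degree `2 n` with the equation `f(x) + g(y) = 0`, `f`, `g` of degree `2 n`
with positive leading coefficients, has at most `n ^ 2` ovals (sharp). For `n = 4`: at most `16`, so it is not an
M-curve (22), nor an (M-1)-, ..., (M-5)-curve.

PROOF. Let `y_0 < v_0 < y_1 < v_1 < ... < y_(N-1)` be the local minima (valleys) and maxima (ridges) of `g`, `N ≤ n`,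
`b_j = g(y_j)`, `B_j = g(v_j)`. A piece (clopen subset `K` of the curve `Γ`) which meets a valley line `y = y_j` contains
at least two points on valley lines (`S_VAL`). A piece which meets no valley line has a leftmost point `(p, v_l)`, such that
`f` lies strictly between `-B_l` and `-b_l` on an interval `(p, p')`, `f(p) = f(p') = -B_l`, `f'(p) > 0 > f'(p')`
(`S_LOOP`). By Rolle's theorem the number of the roots of `f = -b_l` plus twice the number of such `p` is at most `2 n`
(`S_COUNT`). So `2 k ≤ ∑_(j < N-1) 2 n + 2 n ≤ 2 n ^ 2`.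
-/

set_option autoImplicit false

open MvPolynomial Filter Set

namespace Pool.Agent.L7h23.SV

/-- the affine curve `f(x) + g(y) = 0` -/
def Gam (f g : Polynomial ℝ) : Set (ℝ × ℝ) := {w | f.eval w.1 + g.eval w.2 = 0}

/-- no point of the affine curve is a critical point of both `f` and `g` -/
def Smooth (f g : Polynomial ℝ) : Prop :=
  ∀ w ∈ Gam f g, ¬ (f.derivative.eval w.1 = 0 ∧ g.derivative.eval w.2 = 0)

/-- `f` has degree `2 n` and a positive leading coefficient -/
def Good (n : ℕ) (f : Polynomial ℝ) : Prop := f.natDegree = 2 * n ∧ 0 < f.leadingCoeff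

/-- the valleys `y 0, ..., y (N - 1)` and the ridges `v 0, ..., v (N - 2)` of `g` -/
structure Shape (g : Polynomial ℝ) (N : ℕ) (y v : ℕ → ℝ) : Prop where
  one : 1 ≤ N
  yv : ∀ j, j + 1 < N → y j < v j
  vy : ∀ j, j + 1 < N → v j < y (j + 1)
  left : StrictAntiOn (fun x => g.eval x) (Iic (y 0))
  right : StrictMonoOn (fun x => g.eval x) (Ici (y (N - 1)))
  up : ∀ j, j + 1 < N → StrictMonoOn (fun x => g.eval x) (Icc (y j) (v j))
  down : ∀ j, j + 1 < N → StrictAntiOn (fun x => g.eval x) (Icc (v j) (y (j + 1)))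
  dy : ∀ j < N, g.derivative.eval (y j) = 0
  dv : ∀ j, j + 1 < N → g.derivative.eval (v j) = 0

/-- [SHAPE] 150 lines. Proof: the places where `g'` changes its sign are finitely many roots of `g'` (at most `2 n - 1`);
between two consecutive ones `g'` has one sign (and finitely many zeros, so `g` is strictly monotone); `g' < 0` near `-∞`
and `g' > 0` near `+∞`, so there are `2 N - 1` of them, `N ≤ n`. (For instance induction over the number of roots of a
polynomial `h` for the statement: there are `t_1 < ... < t_M`, roots of `h`, such that `h` has weakly alternating signs on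
the intervals.) -/
def S_SHAPE : Prop := ∀ (n : ℕ) (g : Polynomial ℝ), 1 ≤ n → Good n g →
  ∃ (N : ℕ) (y v : ℕ → ℝ), N ≤ n ∧ Shape g N y v

/-- [TEN] 10 lines. -/
def S_TEN : Prop := ∀ (n : ℕ) (f : Polynomial ℝ), 1 ≤ n → Good n f →
  Tendsto (fun x => f.eval x) atTop atTop ∧ Tendsto (fun x => f.eval x) atBot atTop

/-- [ARC] 60 lines. Proof: the set is compact, and the projection to `[p, q]` is a continuous bijection onto the connected
interval `[p, q]` (strict monotonicity: injective), so its inverse is continuous. -/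
def S_ARC : Prop := ∀ (f g : ℝ → ℝ) (p q c d : ℝ), Continuous f → Continuous g → p ≤ q → c ≤ d →
  (StrictMonoOn g (Icc c d) ∨ StrictAntiOn g (Icc c d)) →
  (∀ x ∈ Icc p q, ∃ t ∈ Icc c d, f x + g t = 0) →
  IsPreconnected {w : ℝ × ℝ | w.1 ∈ Icc p q ∧ w.2 ∈ Icc c d ∧ f w.1 + g w.2 = 0}

/-- [STRIP] 200 lines, may assume `S_ARC`. From a point `(r, c)` on the valley line `y = c` one reaches another point of the
valley lines `y = c`, `y = c'` inside the strip. `b = g c`, `B = g v`, `b' = g c'`. Proof for `f' r < 0` (the case `f' r > 0`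
by `f.comp (-X)` and the reflection of `ℝ × ℝ`): `f < -b` just right of `r` and `f → ∞`, so there is a first `s > r` with
`f s = -b`. (1) If `f ≥ -B` on `[r, s]`: the arc over `[r, s]` in `[c, v]` joins `(r, c)` and `(s, c)`. (2) Otherwise let
`p ∈ (r, s)` be the first point with `f p = -B`; `f > -B` on `[r, p)`; the arc over `[r, p]` in `[c, v]` joins `(r, c)` and
`(p, v)`. Going left from `p` (where `f > -B`) let `q < p` be the last point with `f q = -b'` or `f q = -B` (exists as
`f → ∞` at `-∞`); `-B < f < -b'` on `(q, p)` (`f' p ≠ 0` is not needed). The arc over `[q, p]` in `[v, c']` joins `(p, v)` to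
`(q, c')` if `f q = -b'`: done. (3) If `f q = -B` then `q < r`, the arc goes to `(q, v)`; let `q'` be the first point `> q`
with `f q' = -b`; `q' ≤ r`, `f ∈ [-B, -b]` on `[q, q']`, the arc over `[q, q']` in `[c, v]` joins `(q, v)` and `(q', c)`;
`q' ≠ r`, since `f > -b` just left of `r`. -/
def S_STRIP : Prop := ∀ (f g : Polynomial ℝ) (c v c' r : ℝ),
  Tendsto (fun x => f.eval x) atTop atTop → Tendsto (fun x => f.eval x) atBot atTop → c < v → v < c' →
  StrictMonoOn (fun x => g.eval x) (Icc c v) → StrictAntiOn (fun x => g.eval x) (Icc v c') →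
  (r, c) ∈ Gam f g → f.derivative.eval r ≠ 0 →
  ∃ Q : ℝ × ℝ, Q ≠ (r, c) ∧ (Q.2 = c ∨ Q.2 = c') ∧
    ∃ S : Set (ℝ × ℝ), IsPreconnected S ∧ S ⊆ Gam f g ∧ (r, c) ∈ S ∧ Q ∈ S

/-- [TOPS] 80 lines, may assume `S_ARC`. The same above the last valley. If `f' r < 0` let `s` be the first point `> r` with
`f s = -g c`; the arc over `[r, s]` in `[c, d]`, `d` large, joins `(r, c)` and `(s, c)`. If `f' r > 0`: to the left. -/
def S_TOPS : Prop := ∀ (f g : Polynomial ℝ) (c r : ℝ),
  Tendsto (fun x => f.eval x) atTop atTop → Tendsto (fun x => f.eval x) atBot atTop →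
  Tendsto (fun x => g.eval x) atTop atTop → StrictMonoOn (fun x => g.eval x) (Ici c) →
  (r, c) ∈ Gam f g → f.derivative.eval r ≠ 0 →
  ∃ Q : ℝ × ℝ, Q ≠ (r, c) ∧ Q.2 = c ∧
    ∃ S : Set (ℝ × ℝ), IsPreconnected S ∧ S ⊆ Gam f g ∧ (r, c) ∈ S ∧ Q ∈ S

/-- a decomposition of the affine curve into `k` pairwise disjoint nonempty closed pieces -/
structure Pieces (f g : Polynomial ℝ) (k : ℕ) (K : Fin k → Set (ℝ × ℝ)) : Prop where
  ne : ∀ i, (K i).Nonempty
  dis : ∀ i j, i ≠ j → Disjoint (K i) (K j)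
  un : (⋃ i, K i) = Gam f g
  cl : ∀ i, IsClosed (K i)

/-- [CLOP] 40 lines. A preconnected subset of the curve which meets a piece is contained in it (the other pieces are finitely
many closed sets); and every piece is relatively open: each of its points has a neighbourhood in which the curve is in the
piece. -/
def S_CLOP : Prop := ∀ (f g : Polynomial ℝ) (k : ℕ) (K : Fin k → Set (ℝ × ℝ)), Pieces f g k K → ∀ i,
  (∀ S : Set (ℝ × ℝ), IsPreconnected S → S ⊆ Gam f g → (S ∩ K i).Nonempty → S ⊆ K i) ∧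
  ∀ w ∈ K i, ∃ ε : ℝ, 0 < ε ∧ ∀ w' ∈ Gam f g, |w'.1 - w.1| < ε → |w'.2 - w.2| < ε → w' ∈ K i

/-- [COMP] 40 lines. The curve is compact. Proof: `f → ∞` and `g → ∞` at both ends, and both are bounded below. -/
def S_COMP : Prop := ∀ (n : ℕ) (f g : Polynomial ℝ), 1 ≤ n → Good n f → Good n g → IsCompact (Gam f g)

/-- [VAL] 60 lines, may assume `S_STRIP`, `S_TOPS`, `S_CLOP`, `S_TEN`. A piece with a point on a valley line contains another
point on a valley line. -/
def S_VAL : Prop := ∀ (n : ℕ) (f g : Polynomial ℝ) (N : ℕ) (y v : ℕ → ℝ) (k : ℕ) (K : Fin k → Set (ℝ × ℝ)),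
  1 ≤ n → Good n f → Good n g → Smooth f g → Shape g N y v → Pieces f g k K → ∀ i, ∀ w ∈ K i,
  (∃ j < N, w.2 = y j) → ∃ w' ∈ K i, w' ≠ w ∧ ∃ j < N, w'.2 = y j

/-- the left ends of the loops with the values of `f` between `-B` and `-b` -/
def Lft (f : Polynomial ℝ) (b B : ℝ) : Set ℝ :=
  {p | f.eval p = -B ∧ 0 < f.derivative.eval p ∧ ∃ p' : ℝ, p < p' ∧ f.eval p' = -B ∧ f.derivative.eval p' < 0 ∧
    ∀ x : ℝ, p < x → x < p' → -B < f.eval x ∧ f.eval x < -b}

/-- [LEFT] 120 lines, may assume `S_COMP`, `S_CLOP`. A piece which meets no valley line has a point `(p, v l)` on a ridge line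
with `f' p > 0`. Proof: let `(p, t)` be a leftmost point of the piece (it is compact). If `t` is in the interior of an
interval on which `g` is strictly monotone (`Iio (y 0)`, `Ioo (y j) (v j)`, `Ioo (v j) (y (j+1))`, `Ioi (y (N-1))`), then for all `x`
near `p`, in particular for some `x < p`, there is a point `(x, t')` of the curve with `t'` near `t` (intermediate values), a
contradiction. `t` is not a valley. So `t = v l`; `g' t = 0`, so `f' p ≠ 0`; if `f' p < 0` then for `x < p` near `p` we have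
`-f x < g (v l)`, and again there is `(x, t')`, `t' < v l` near `v l`, on the curve. -/
def S_LEFT : Prop := ∀ (n : ℕ) (f g : Polynomial ℝ) (N : ℕ) (y v : ℕ → ℝ) (k : ℕ) (K : Fin k → Set (ℝ × ℝ)),
  1 ≤ n → Good n f → Good n g → Smooth f g → Shape g N y v → Pieces f g k K → ∀ i,
  (∀ w ∈ K i, ∀ j < N, w.2 ≠ y j) → ∃ l p, l + 1 < N ∧ (p, v l) ∈ K i ∧ 0 < f.derivative.eval p

/-- [LOOP] 90 lines, may assume `S_LEFT`, `S_ARC`, `S_CLOP`, `S_TEN`. Moreover `p ∈ Lft f (g (y l)) (g (v l))`. Proof: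
`b = g (y l) < B = g (v l)`, `f p = -B < -b`, so there is a first `x₁ > p` with `f x₁ = -b`. If `f > -B` on `(p, x₁)`
then the arc over `[p, x₁]` in `[y l, v l]` joins `(p, v l)` and `(x₁, y l)`, so the piece meets a valley line (`S_CLOP`). So
there is a first `p' ∈ (p, x₁)` with `f p' = -B` (`f > -B` just right of `p`); `f' p' ≠ 0` by `Smooth`, and `f > -B` just left
of `p'`, so `f' p' < 0`. -/
def S_LOOP : Prop := ∀ (n : ℕ) (f g : Polynomial ℝ) (N : ℕ) (y v : ℕ → ℝ) (k : ℕ) (K : Fin k → Set (ℝ × ℝ)),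
  1 ≤ n → Good n f → Good n g → Smooth f g → Shape g N y v → Pieces f g k K → ∀ i,
  (∀ w ∈ K i, ∀ j < N, w.2 ≠ y j) →
  ∃ l p, l + 1 < N ∧ (p, v l) ∈ K i ∧ p ∈ Lft f (g.eval (y l)) (g.eval (v l))

/-- [ALT] 60 lines. Proof: between consecutive elements of `S` there is a root of `h`; these are `|S| - 1` different roots.
(Induction over the size of `S`, or `Finset.orderEmbOfFin`.) -/
def S_ALT : Prop := ∀ (h : Polynomial ℝ) (S : Finset ℝ), h ≠ 0 →
  (∀ a ∈ S, ∀ b ∈ S, a < b → (∀ c ∈ S, ¬ (a < c ∧ c < b)) → h.eval a * h.eval b < 0) →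
  S.card ≤ h.natDegree + 1

/-- [COUNT] 150 lines, may assume `S_ALT`. Proof: let `V = {f = -b}`, `W = Lft f b B`, `W'` the set of the right ends `p'` of
the elements of `W` (for each `p` the `p'` is unique, and `p ↦ p'` is injective: if `p₁ < p₂` have the same `p'` then
`p₂ ∈ (p₁, p')`, `f p₂ = -B`). Let `S` be the (disjoint) union, `|S| = |V| + 2 |W|`. Let `a < c` be consecutive in `S`; claim
`f' a * f' c < 0`. Otherwise both are `> 0`: if `a ∈ V` then `f > -b` right of `a`, and left of `c` there are values `< -b`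
(`c ∈ V`, or `f c = -B`), so there is an element of `V` between; if `a ∈ W` then `c ≤ a'`, `c ≠ a'` (sign), so
`-B < f c < -b`, a contradiction. Or both are `< 0`: if `c ∈ W'` then `a` is strictly between the left end and `c`, a
contradiction; if `c ∈ V` then `f > -b` left of `c`, and right of `a` there are values `< -b`, so there is an element of `V`
between. Now `S_ALT` for `h = f'`, of degree `2 n - 1`. -/
def S_COUNT : Prop := ∀ (n : ℕ) (f : Polynomial ℝ) (b B : ℝ), 1 ≤ n → Good n f → b < B →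
  (∀ x : ℝ, f.eval x = -b → f.derivative.eval x ≠ 0) →
  {x : ℝ | f.eval x = -b}.Finite ∧ (Lft f b B).Finite ∧
    {x : ℝ | f.eval x = -b}.ncard + 2 * (Lft f b B).ncard ≤ 2 * n

/-- [AFF] 120 lines, may assume `S_SHAPE`, `S_VAL`, `S_LOOP`, `S_COUNT`. Proof: let `k₁` be the number of the pieces which
meet a valley line and `k₂` the number of the others. The points of the curve on the valley lines: `2 k₁` is at most their
number `∑_(j < N) |{f = -g (y j)}|` (`S_VAL`), and `k₂ ≤ ∑_(l + 1 < N) |Lft f (g (y l)) (g (v l))|` (`S_LOOP`, different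
pieces give different points `(p, v l)`). So `2 k ≤ ∑_(j < N) 2 n ≤ 2 n ^ 2` by `S_COUNT` (for `j = N - 1`: at most `2 n`
roots). -/
def S_AFF : Prop := ∀ (n : ℕ) (f g : Polynomial ℝ) (k : ℕ) (K : Fin k → Set (ℝ × ℝ)),
  1 ≤ n → Good n f → Good n g → Smooth f g → Pieces f g k K → k ≤ n ^ 2

/-! ### The projective curve -/

/-- The form of degree `2 n` with the equation `f(x) + g(y) = 0` in the affine coordinates. -/
noncomputable def sep (n : ℕ) (f g : Polynomial ℝ) : MvPolynomial (Fin 3) ℝ :=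
  ∑ i ∈ Finset.range (2 * n + 1), (C (f.coeff i) * X 0 ^ i * X 2 ^ (2 * n - i) +
    C (g.coeff i) * X 1 ^ i * X 2 ^ (2 * n - i))

/-- The cone of the real part of the curve `F = 0`: the nonzero real zeros of `F`. -/
def realCone (F : MvPolynomial (Fin 3) ℝ) : Set (Fin 3 → ℝ) :=
  {v | v ≠ 0 ∧ eval v F = 0}

/-- The real part `{F = 0} ⊆ ℝℙ²` is the union of `k` pairwise disjoint nonempty closed sets
(given by the cones over them, which are closed in `ℝ³ ∖ {0}`). -/
def SplitsInto (k : ℕ) (F : MvPolynomial (Fin 3) ℝ) : Prop :=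
  ∃ C : Fin k → Set (Fin 3 → ℝ),
    (∀ i, (C i).Nonempty) ∧ (∀ i j, i ≠ j → Disjoint (C i) (C j)) ∧
    (⋃ i, C i) = realCone F ∧
    (∀ i, ∀ v ∈ C i, ∀ c : ℝ, c ≠ 0 → c • v ∈ C i) ∧
    (∀ i, ∃ K : Set (Fin 3 → ℝ), IsClosed K ∧ C i = K ∩ {v | v ≠ 0})

/-- The curve `F = 0` is nonsingular: `F` and its partial derivatives have no common zero in
`ℂℙ²`. -/
def Nonsing (F : MvPolynomial (Fin 3) ℝ) : Prop :=
  ∀ v : Fin 3 → ℂ, v ≠ 0 → ¬ (aeval v F = 0 ∧ ∀ i, aeval v (pderiv i F) = 0)

/-- [EVS] 40 lines. -/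
def S_EVS : Prop := ∀ (n : ℕ) (f g : Polynomial ℝ), 1 ≤ n → f.natDegree = 2 * n → g.natDegree = 2 * n →
  (∀ x y : ℝ, eval ![x, y, 1] (sep n f g) = f.eval x + g.eval y) ∧
  (∀ x y : ℝ, eval ![x, y, 0] (sep n f g) = f.leadingCoeff * x ^ (2 * n) + g.leadingCoeff * y ^ (2 * n)) ∧
  ∀ (c : ℝ) (w : Fin 3 → ℝ), eval (c • w) (sep n f g) = c ^ (2 * n) * eval w (sep n f g)

/-- [SMO] 100 lines. Nonsingular implies `Smooth`. Proof: at the real point `(x, y, 1)` with `f x + g y = 0`, `f' x = 0`,
`g' y = 0`: `∂F/∂x = f' x`, `∂F/∂y = g' y`, and `∂F/∂z = ∑ (2 n - i) (f_i x ^ i + g_i y ^ i) = 2 n (f x + g y) - x f' x - y g' y`,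
all zero (pass to `ℂ` by `aeval_algebraMap_apply` or by the definition). -/
def S_SMO : Prop := ∀ (n : ℕ) (f g : Polynomial ℝ), 1 ≤ n → f.natDegree = 2 * n → g.natDegree = 2 * n →
  Nonsing (sep n f g) → Smooth f g

/-- [PRO] 80 lines, may assume `S_EVS`. Proof: `K i = {(x, y) | ![x, y, 1] ∈ C i}`; it is closed since `(x, y) ↦ ![x, y, 1]` is
continuous; it is not empty, since a point of `C i` has a nonzero last coordinate (otherwise
`f.leadingCoeff * x ^ (2 n) + g.leadingCoeff * y ^ (2 n) = 0`, so `x = y = 0`) and can be scaled. -/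
def S_PRO : Prop := ∀ (n : ℕ) (f g : Polynomial ℝ) (k : ℕ), 1 ≤ n → Good n f → Good n g →
  SplitsInto k (sep n f g) → ∃ K : Fin k → Set (ℝ × ℝ), Pieces f g k K

/-- the final theorem -/
def S_FIN : Prop := ∀ (n : ℕ) (f g : Polynomial ℝ) (k : ℕ), 1 ≤ n → Good n f → Good n g → Nonsing (sep n f g) →
  SplitsInto k (sep n f g) → k ≤ n ^ 2

end Pool.Agent.L7h23.SV
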